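import Pool.Agent.N922.PY.Stm

/-!
# Existence of `H` (INFB)

Project PY (helper922); this file by helper280.
-/

set_option autoImplicit false

open Polynomial

namespace Pool.Agent.N280.PY

open Pool.Agent.Y723.HJ (CR CC mi mem_mi)
open Pool.Agent.N922.PY

/-! ### Integers -/

theorem toZMod_eq_zero (a : ℤ_[2]) : PadicInt.toZMod (p := 2) a = 0 ↔ ‖a‖ < 1 := by
  rw [← RingHom.mem_ker, PadicInt.ker_toZMod, IsLocalRing.mem_maximalIdeal, PadicInt.mem_nonunits]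

theorem half {x : ℚ_[2]} (h : ‖x‖ < 1) : ∃ a : ℤ_[2], algebraMap ℤ_[2] ℚ_[2] (2 * a) = x := by
  obtain ⟨a, ha⟩ := (PadicInt.norm_lt_one_iff_dvd (⟨x, h.le⟩ : ℤ_[2])).1 h
  refine ⟨a, ?_⟩
  have h2 : ((2 : ℕ) : ℤ_[2]) * a = 2 * a := by norm_num
  rw [← h2, ← ha]
  rfl

theorem norm_int (a : ℤ_[2]) : ‖algebraMap ℤ_[2] ℚ_[2] a‖ ≤ 1 := PadicInt.norm_le_one a

theorem norm_alg (a : ℤ_[2]) : ‖algebraMap ℤ_[2] ℚ_[2] a‖ = ‖a‖ := rfl

theorem sq_lt {x : ℚ_[2]} (h : ‖x ^ 2‖ < 1) : ‖x‖ < 1 := by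
  rw [norm_pow] at h
  by_contra hcon
  rw [not_lt] at hcon
  exact absurd h (not_lt.2 (one_le_pow₀ hcon))

theorem alg_inj : Function.Injective (algebraMap ℤ_[2] ℚ_[2]) :=
  FaithfulSMul.algebraMap_injective ℤ_[2] ℚ_[2]

/-- elements of norm at most one -/
theorem add_le {x y : ℚ_[2]} (hx : ‖x‖ ≤ 1) (hy : ‖y‖ ≤ 1) : ‖x + y‖ ≤ 1 :=
  (IsUltrametricDist.norm_add_le_max x y).trans (max_le hx hy)

theorem add_lt {x y : ℚ_[2]} (hx : ‖x‖ < 1) (hy : ‖y‖ < 1) : ‖x + y‖ < 1 :=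
  (IsUltrametricDist.norm_add_le_max x y).trans_lt (max_lt hx hy)

theorem sub_le' {x y : ℚ_[2]} (hx : ‖x‖ ≤ 1) (hy : ‖y‖ ≤ 1) : ‖x - y‖ ≤ 1 := by
  rw [sub_eq_add_neg]
  exact add_le hx (by rwa [norm_neg])

theorem mul_le' {x y : ℚ_[2]} (hx : ‖x‖ ≤ 1) (hy : ‖y‖ ≤ 1) : ‖x * y‖ ≤ 1 := by
  rw [norm_mul]
  exact mul_le_one₀ hx (norm_nonneg _) hy

theorem mul_lt_left {x y : ℚ_[2]} (hx : ‖x‖ < 1) (hy : ‖y‖ ≤ 1) : ‖x * y‖ < 1 := by
  rw [norm_mul]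
  exact mul_lt_one_of_nonneg_of_lt_one_left (norm_nonneg _) hx hy

theorem mul_lt_right' {x y : ℚ_[2]} (hx : ‖x‖ ≤ 1) (hy : ‖y‖ < 1) : ‖x * y‖ < 1 := by
  rw [mul_comm]
  exact mul_lt_left hy hx

theorem pow_le' {x : ℚ_[2]} (hx : ‖x‖ ≤ 1) (k : ℕ) : ‖x ^ k‖ ≤ 1 := by
  rw [norm_pow]
  exact pow_le_one₀ (norm_nonneg _) hx

theorem two_le : ‖(2 : ℚ_[2])‖ ≤ 1 := by
  have := norm_int 2
  rwa [map_ofNat] at this

theorem one_add {x : ℚ_[2]} (hx : ‖x‖ < 1) : ‖1 + x‖ = 1 := by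
  have h := IsUltrametricDist.norm_add_eq_max_of_norm_ne_norm (x := (1 : ℚ_[2])) (y := x)
    (by rw [norm_one]; exact hx.ne')
  rw [h, norm_one]
  exact max_eq_left hx.le

/-! ### The polynomial -/

theorem fexp {f : ℤ_[2][X]} (hf : Good f) :
    f = X ^ 5 + C (f.coeff 4) * X ^ 4 + C (f.coeff 3) * X ^ 3 + C (f.coeff 2) * X ^ 2 +
      C (f.coeff 1) * X + C (f.coeff 0) := by
  have h := f.as_sum_range_C_mul_X_pow
  rw [hf.deg] at h
  simp only [Finset.sum_range_succ, Finset.sum_range_zero, zero_add, pow_zero, mul_one,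
    pow_one] at h
  have h5 : f.coeff 5 = 1 := by
    have := hf.mon.coeff_natDegree
    rwa [hf.deg] at this
  rw [h5, C_1, one_mul] at h
  conv_lhs => rw [h]
  ring

section
variable (a0 a1 a2 a3 a4 t n : ℚ_[2])

/-- the reversed polynomial at `z`, `z ^ 2 = t z - n`: constant term -/
noncomputable def P0 : ℚ_[2] := 1 - n * (a3 + a2 * t + a1 * (t ^ 2 - n) + a0 * (t ^ 3 - 2 * (t * n)))

/-- the reversed polynomial at `z`, `z ^ 2 = t z - n`: coefficient of `z` -/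
noncomputable def P1 : ℚ_[2] := a4 + a3 * t + a2 * (t ^ 2 - n) + a1 * (t ^ 3 - 2 * (t * n)) +
  a0 * (t ^ 4 - (2 + 1) * (t ^ 2 * n) + n ^ 2)

end

/-- the reversed polynomial in the algebra -/
theorem phi {E : Type*} [CommRing E] (a0 a1 a2 a3 a4 t n z x : E) (h1 : x * z = 1)
    (h2 : z ^ 2 = t * z - n) :
    z ^ 5 * (x ^ 5 + a4 * x ^ 4 + a3 * x ^ 3 + a2 * x ^ 2 + a1 * x + a0) =
      (1 - n * (a3 + a2 * t + a1 * (t ^ 2 - n) + a0 * (t ^ 3 - 2 * (t * n)))) +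
      (a4 + a3 * t + a2 * (t ^ 2 - n) + a1 * (t ^ 3 - 2 * (t * n)) +
        a0 * (t ^ 4 - (2 + 1) * (t ^ 2 * n) + n ^ 2)) * z := by
  have h3 : z ^ 3 = (t ^ 2 - n) * z - t * n := by linear_combination (z + t) * h2
  have h4 : z ^ 4 = (t ^ 3 - 2 * (t * n)) * z - n * (t ^ 2 - n) := by
    linear_combination z * h3 + (t ^ 2 - n) * h2
  have h5 : z ^ 5 = (t ^ 4 - (2 + 1) * (t ^ 2 * n) + n ^ 2) * z - n * (t ^ 3 - 2 * (t * n)) := by
    linear_combination z * h4 + (t ^ 3 - 2 * (t * n)) * h2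
  calc z ^ 5 * (x ^ 5 + a4 * x ^ 4 + a3 * x ^ 3 + a2 * x ^ 2 + a1 * x + a0)
      = (x * z) ^ 5 + a4 * (x * z) ^ 4 * z + a3 * (x * z) ^ 3 * z ^ 2 + a2 * (x * z) ^ 2 * z ^ 3 +
        a1 * (x * z) * z ^ 4 + a0 * z ^ 5 := by ring
    _ = 1 + a4 * z + a3 * z ^ 2 + a2 * z ^ 3 + a1 * z ^ 4 + a0 * z ^ 5 := by rw [h1]; ring
    _ = _ := by rw [h2, h3, h4, h5]; ring

theorem r2_coeff_zero {v : ℤ_[2][X]} (h : r2 v = 1) : ‖v.coeff 0‖ = 1 := by
  have h1 := congrArg (fun p => p.coeff 0) h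
  simp only [coeff_map, coeff_one_zero] at h1
  by_contra hcon
  have h2 : ‖v.coeff 0‖ < 1 := lt_of_le_of_ne (PadicInt.norm_le_one _) hcon
  rw [(toZMod_eq_zero _).2 h2] at h1
  exact zero_ne_one h1

theorem r2_coeff {v : ℤ_[2][X]} (h : r2 v = 1) (i : ℕ) (hi : i ≠ 0) : ‖v.coeff i‖ < 1 := by
  have h1 := congrArg (fun p => p.coeff i) h
  simp only [coeff_map] at h1
  rw [coeff_one, if_neg hi] at h1
  exact (toZMod_eq_zero _).1 h1

/-- membership -/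
theorem mem_of {f : ℤ_[2][X]} {G w : ℚ_[2][X]} (h : G ∣ fK f - w ^ 2) (m : ℕ) (q : AA f)
    (hd : G ∣ (X ^ m + 2 * q.re : ℤ_[2][X]).map (algebraMap ℤ_[2] ℚ_[2]) -
      w * (2 * q.im : ℤ_[2][X]).map (algebraMap ℤ_[2] ℚ_[2])) :
    toK f (⟨X ^ m, 0⟩ + 2 * q) ∈ mi (fK f) G (-w) := by
  rw [mem_mi (by rw [neg_sq]; exact h)]
  have e1 : (⟨X ^ m, 0⟩ + 2 * q : AA f).re = X ^ m + 2 * q.re := by
    rw [two_mul, two_mul, QuadraticAlgebra.re_add, QuadraticAlgebra.re_add]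
  have e2 : (⟨X ^ m, 0⟩ + 2 * q : AA f).im = 2 * q.im := by
    rw [two_mul, two_mul, QuadraticAlgebra.im_add, QuadraticAlgebra.im_add, zero_add]
  change G ∣ ((⟨X ^ m, 0⟩ + 2 * q : AA f).re).map _ +
    -w * ((⟨X ^ m, 0⟩ + 2 * q : AA f).im).map _
  rw [e1, e2, neg_mul, ← sub_eq_add_neg]
  exact hd

theorem norm_of {f : ℤ_[2][X]} (m : ℕ) (q : AA f) :
    (⟨X ^ m, 0⟩ + 2 * q : AA f).norm = (X ^ m + 2 * q.re) ^ 2 - f * (2 * q.im) ^ 2 := by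
  have e1 : (⟨X ^ m, 0⟩ + 2 * q : AA f).re = X ^ m + 2 * q.re := by
    rw [two_mul, two_mul, QuadraticAlgebra.re_add, QuadraticAlgebra.re_add]
  have e2 : (⟨X ^ m, 0⟩ + 2 * q : AA f).im = 2 * q.im := by
    rw [two_mul, two_mul, QuadraticAlgebra.im_add, QuadraticAlgebra.im_add, zero_add]
  rw [QuadraticAlgebra.norm_def, e1, e2]
  ring

/-- degree two: the computation in the algebra -/
theorem two_alg {E : Type*} [CommRing E] [Algebra ℚ_[2] E] (a0 a1 a2 a3 a4 t n r0 r1 : ℚ_[2])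
    (x z w : E) (hxz : x * z = 1) (hz : z ^ 2 = algebraMap ℚ_[2] E t * z - algebraMap ℚ_[2] E n)
    (hw : w = algebraMap ℚ_[2] E r0 + algebraMap ℚ_[2] E r1 * x)
    (hf : w ^ 2 = x ^ 5 + algebraMap ℚ_[2] E a4 * x ^ 4 + algebraMap ℚ_[2] E a3 * x ^ 3 +
      algebraMap ℚ_[2] E a2 * x ^ 2 + algebraMap ℚ_[2] E a1 * x + algebraMap ℚ_[2] E a0)
    (hb : ∀ a b : ℚ_[2], algebraMap ℚ_[2] E a + algebraMap ℚ_[2] E b * z = 0 → a = 0 ∧ b = 0)
    (h0 : ‖a0‖ ≤ 1) (h1 : ‖a1‖ ≤ 1) (h2 : ‖a2‖ ≤ 1) (h3 : ‖a3‖ ≤ 1) (h4 : ‖a4‖ ≤ 1)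
    (ht : ‖t‖ < 1) (hn : ‖n‖ < 1) (hn0 : n ≠ 0) :
    ∃ ν τ : ℚ_[2], ‖ν‖ < 1 ∧ ‖τ‖ < 1 ∧ ν ≠ 0 ∧
      x ^ 4 + algebraMap ℚ_[2] E ν * w ^ 2 - w * (algebraMap ℚ_[2] E τ * x ^ 2) = 0 := by
  set o := algebraMap ℚ_[2] E with ho
  obtain ⟨p0, hp0⟩ : ∃ p0 : ℚ_[2], p0 = P0 a0 a1 a2 a3 t n := ⟨_, rfl⟩
  obtain ⟨p1, hp1⟩ : ∃ p1 : ℚ_[2], p1 = P1 a0 a1 a2 a3 a4 t n := ⟨_, rfl⟩
  have hphi := phi (o a0) (o a1) (o a2) (o a3) (o a4) (o t) (o n) z x hxz hz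
  rw [← hf] at hphi
  have hphi' : z ^ 5 * w ^ 2 = o p0 + o p1 * z := by
    rw [hphi, hp0, hp1, P0, P1]
    simp only [map_sub, map_add, map_mul, map_pow, map_one, map_ofNat]
  -- the element `β = w z ^ 2`
  obtain ⟨e0, he0⟩ : ∃ e0 : ℚ_[2], e0 = -(r0 * n) := ⟨_, rfl⟩
  obtain ⟨e1, he1⟩ : ∃ e1 : ℚ_[2], e1 = r1 + r0 * t := ⟨_, rfl⟩
  have hβ : w * z ^ 2 = o e0 + o e1 * z := by
    rw [he0, he1, hw]
    simp only [map_neg, map_add, map_mul]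
    calc (o r0 + o r1 * x) * z ^ 2 = o r0 * z ^ 2 + o r1 * (x * z) * z := by ring
      _ = _ := by rw [hxz, hz]; ring
  have hzβ : z * (o e0 + o e1 * z) ^ 2 = o p0 + o p1 * z := by
    rw [← hβ, ← hphi']
    ring
  have hid : z * (o e0 + o e1 * z) ^ 2 = o (-(n * (2 * e0 * e1 + e1 ^ 2 * t))) +
      o (e0 ^ 2 - e1 ^ 2 * n + t * (2 * e0 * e1 + e1 ^ 2 * t)) * z := by
    simp only [map_sub, map_add, map_mul, map_pow, map_neg, map_ofNat]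
    have hz3 : z ^ 3 = (o t ^ 2 - o n) * z - o t * o n := by
      linear_combination (z + o t) * hz
    calc z * (o e0 + o e1 * z) ^ 2
        = o e0 ^ 2 * z + 2 * o e0 * o e1 * z ^ 2 + o e1 ^ 2 * z ^ 3 := by ring
      _ = _ := by rw [hz3, hz]; ring
  have hI := hb (-(n * (2 * e0 * e1 + e1 ^ 2 * t)) - p0)
    (e0 ^ 2 - e1 ^ 2 * n + t * (2 * e0 * e1 + e1 ^ 2 * t) - p1) (by
      rw [map_sub, map_sub (algebraMap ℚ_[2] E) _ p1]
      have := hid.symm.trans hzβ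
      linear_combination this)
  obtain ⟨I1, I2⟩ := hI
  have I1' : -(n * (2 * e0 * e1 + e1 ^ 2 * t)) = p0 := by linear_combination I1
  have I2' : e0 ^ 2 - e1 ^ 2 * n + t * (2 * e0 * e1 + e1 ^ 2 * t) = p1 := by linear_combination I2
  obtain ⟨N, hN⟩ : ∃ N : ℚ_[2], N = e0 ^ 2 + e0 * e1 * t + e1 ^ 2 * n := ⟨_, rfl⟩
  obtain ⟨Φ, hΦ⟩ : ∃ Φ : ℚ_[2], Φ = p0 ^ 2 + p0 * p1 * t + p1 ^ 2 * n := ⟨_, rfl⟩
  have hNΦ : n * N ^ 2 = Φ := by
    rw [hΦ, hN, ← I1', ← I2']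
    ring
  -- norms
  have ht' := ht.le
  have hn' := hn.le
  have htn : ‖t * n‖ ≤ 1 := mul_le' ht' hn'
  have hq : ‖a3 + a2 * t + a1 * (t ^ 2 - n) + a0 * (t ^ 3 - 2 * (t * n))‖ ≤ 1 :=
    add_le (add_le (add_le h3 (mul_le' h2 ht')) (mul_le' h1 (sub_le' (pow_le' ht' 2) hn')))
      (mul_le' h0 (sub_le' (pow_le' ht' 3) (mul_le' two_le htn)))
  have hp0n : ‖p0‖ = 1 := by
    rw [hp0, P0, sub_eq_add_neg]
    exact one_add (by rw [norm_neg]; exact mul_lt_left hn hq)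
  have three_le : ‖(2 + 1 : ℚ_[2])‖ ≤ 1 := add_le two_le (by rw [norm_one])
  have hp1n : ‖p1‖ ≤ 1 := by
    rw [hp1, P1]
    exact add_le (add_le (add_le (add_le h4 (mul_le' h3 ht')) (mul_le' h2
      (sub_le' (pow_le' ht' 2) hn'))) (mul_le' h1 (sub_le' (pow_le' ht' 3) (mul_le' two_le htn))))
      (mul_le' h0 (add_le (sub_le' (pow_le' ht' 4) (mul_le' three_le
        (mul_le' (pow_le' ht' 2) hn'))) (pow_le' hn' 2)))
  have hΦn : ‖Φ‖ = 1 := by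
    have hs : ‖p0 * p1 * t + p1 ^ 2 * n‖ < 1 :=
      add_lt (mul_lt_right' (mul_le' hp0n.le hp1n) ht) (mul_lt_right' (pow_le' hp1n 2) hn)
    have hp2 : ‖p0 ^ 2‖ = 1 := by rw [norm_pow, hp0n, one_pow]
    have e : Φ = p0 ^ 2 + (p0 * p1 * t + p1 ^ 2 * n) := by rw [hΦ]; ring
    rw [e, IsUltrametricDist.norm_add_eq_max_of_norm_ne_norm (by rw [hp2]; exact hs.ne'), hp2]
    exact max_eq_left hs.le
  have hΦ0 : Φ ≠ 0 := fun h => by
    rw [h, norm_zero] at hΦn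
    exact zero_ne_one hΦn
  have hN0 : N ≠ 0 := fun h => by
    rw [h] at hNΦ
    apply hΦ0
    rw [← hNΦ]
    ring
  refine ⟨N⁻¹, (2 * e0 + e1 * t) * N⁻¹, ?_, ?_, inv_ne_zero hN0, ?_⟩
  · apply sq_lt
    have e : (N⁻¹) ^ 2 = n * Φ⁻¹ := by
      rw [← hNΦ]
      field_simp
    rw [e, norm_mul, norm_inv, hΦn, inv_one, mul_one]
    exact hn
  · apply sq_lt
    have hν : ‖N⁻¹‖ < 1 := by
      apply sq_lt
      have e : (N⁻¹) ^ 2 = n * Φ⁻¹ := by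
        rw [← hNΦ]
        field_simp
      rw [e, norm_mul, norm_inv, hΦn, inv_one, mul_one]
      exact hn
    have e : ((2 * e0 + e1 * t) * N⁻¹) ^ 2 = (2 * p1 * n + t * p0) * Φ⁻¹ + 2 * N⁻¹ := by
      have e2 : n * (2 * e0 + e1 * t) ^ 2 = (2 * p1 * n + t * p0) + 2 * (n * N) := by
        rw [hN, ← I1', ← I2']
        ring
      have e3 : (N⁻¹) ^ 2 = n * Φ⁻¹ := by
        rw [← hNΦ]
        field_simp
      have e4 : n * N * Φ⁻¹ = N⁻¹ := by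
        rw [← hNΦ]
        field_simp
      rw [mul_pow, e3]
      calc (2 * e0 + e1 * t) ^ 2 * (n * Φ⁻¹) = (n * (2 * e0 + e1 * t) ^ 2) * Φ⁻¹ := by ring
        _ = (2 * p1 * n + t * p0) * Φ⁻¹ + 2 * (n * N * Φ⁻¹) := by rw [e2]; ring
        _ = _ := by rw [e4]
    rw [e]
    refine add_lt ?_ (mul_lt_right' two_le hν)
    rw [norm_mul, norm_inv, hΦn, inv_one, mul_one]
    exact add_lt (mul_lt_right' (mul_le' two_le hp1n) hn) (mul_lt_left ht hp0n.le)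
  · have hb2 : (o e0 + o e1 * z) ^ 2 - o (2 * e0 + e1 * t) * (o e0 + o e1 * z) + o N = 0 := by
      rw [hN]
      simp only [map_add, map_mul, map_pow, map_ofNat]
      linear_combination (o e1 ^ 2) * hz
    have hNN : o N⁻¹ * o N = 1 := by
      rw [← map_mul, inv_mul_cancel₀ hN0, map_one]
    have hwx : w = (o e0 + o e1 * z) * x ^ 2 := by
      rw [← hβ]
      calc w = w * (x * z) ^ 2 := by rw [hxz]; ring
        _ = _ := by ring
    rw [hwx, map_mul]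
    calc x ^ 4 + o N⁻¹ * ((o e0 + o e1 * z) * x ^ 2) ^ 2 -
          (o e0 + o e1 * z) * x ^ 2 * (o (2 * e0 + e1 * t) * o N⁻¹ * x ^ 2)
        = x ^ 4 * (1 + o N⁻¹ * ((o e0 + o e1 * z) ^ 2 -
          o (2 * e0 + e1 * t) * (o e0 + o e1 * z))) := by ring
      _ = x ^ 4 * (1 + o N⁻¹ * (-o N)) := by
        congr 3
        linear_combination hb2
      _ = x ^ 4 * (1 - o N⁻¹ * o N) := by ring
      _ = 0 := by rw [hNN]; ring

theorem deg_f_mul {f : ℤ_[2][X]} (hf : Good f) {a : ℤ_[2]} (ha : a ≠ 0) :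
    (C a * f).natDegree = 5 := by
  rw [natDegree_C_mul ha, hf.deg]

/-- `f` over `ℚ_2` -/
theorem fKexp {f : ℤ_[2][X]} (hf : Good f) :
    fK f = X ^ 5 + C (algebraMap ℤ_[2] ℚ_[2] (f.coeff 4)) * X ^ 4 +
      C (algebraMap ℤ_[2] ℚ_[2] (f.coeff 3)) * X ^ 3 +
      C (algebraMap ℤ_[2] ℚ_[2] (f.coeff 2)) * X ^ 2 +
      C (algebraMap ℤ_[2] ℚ_[2] (f.coeff 1)) * X + C (algebraMap ℤ_[2] ℚ_[2] (f.coeff 0)) := by
  have h := congrArg (Polynomial.map (algebraMap ℤ_[2] ℚ_[2])) (fexp hf)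
  simp only [Polynomial.map_add, Polynomial.map_mul, Polynomial.map_pow, map_X, map_C] at h
  exact h

/-- degree one -/
theorem one_case {f : ℤ_[2][X]} (hf : Good f) {v : ℤ_[2][X]} {c : ℚ_[2]} {w : ℚ_[2][X]}
    (hv : r2 v = 1) (hd : v.natDegree = 1)
    (hm : (C c * v.map (algebraMap ℤ_[2] ℚ_[2])).Monic)
    (hw : C c * v.map (algebraMap ℤ_[2] ℚ_[2]) ∣ fK f - w ^ 2) :
    ∃ (m : ℕ) (q : AA f), (⟨X ^ m, 0⟩ + 2 * q : AA f).norm.natDegree = 2 * m + v.natDegree ∧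
      toK f (⟨X ^ m, 0⟩ + 2 * q) ∈ mi (fK f) (C c * v.map (algebraMap ℤ_[2] ℚ_[2])) (-w) := by
  have hc : c ≠ 0 := by
    rintro rfl
    rw [C_0, zero_mul] at hm
    exact not_monic_zero hm
  set V0 : ℚ_[2] := algebraMap ℤ_[2] ℚ_[2] (v.coeff 0) with hV0
  set V1 : ℚ_[2] := algebraMap ℤ_[2] ℚ_[2] (v.coeff 1) with hV1
  have n0 : ‖V0‖ = 1 := (norm_alg _).trans (r2_coeff_zero hv)
  have n1 : ‖V1‖ < 1 := (norm_alg (v.coeff 1)).trans_lt (r2_coeff hv 1 one_ne_zero)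
  have V00 : V0 ≠ 0 := fun h => by
    rw [h, norm_zero] at n0
    exact zero_ne_one n0
  have V10 : V1 ≠ 0 := by
    intro h
    have h1 : v.coeff 1 = 0 := alg_inj (by rw [← hV1, h, map_zero])
    have h2 : v.leadingCoeff = 0 := by rw [leadingCoeff, hd, h1]
    rw [leadingCoeff_eq_zero] at h2
    rw [h2, natDegree_zero] at hd
    exact zero_ne_one hd
  have hvexp : v.map (algebraMap ℤ_[2] ℚ_[2]) = C V1 * X + C V0 := by
    have h := v.as_sum_range_C_mul_X_pow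
    rw [hd] at h
    simp only [Finset.sum_range_succ, Finset.sum_range_zero, zero_add, pow_zero, mul_one,
      pow_one] at h
    rw [h]
    simp only [Polynomial.map_add, Polynomial.map_mul, map_X, map_C]
    rw [add_comm]
  obtain ⟨x, hx⟩ : ∃ x : ℚ_[2], x = -(V0 / V1) := ⟨_, rfl⟩
  obtain ⟨z, hz⟩ : ∃ z : ℚ_[2], z = -(V1 / V0) := ⟨_, rfl⟩
  have hxz : x * z = 1 := by
    rw [hx, hz]
    field_simp
  have hz0 : z ≠ 0 := right_ne_zero_of_mul_eq_one hxz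
  have hx0 : x ≠ 0 := left_ne_zero_of_mul_eq_one hxz
  have hzn : ‖z‖ < 1 := by
    rw [hz, norm_neg, norm_div, n0, div_one]
    exact n1
  have hG : C c * v.map (algebraMap ℤ_[2] ℚ_[2]) = X - C x := by
    have h1 : c * V1 = 1 := by
      have h2 := hm.coeff_natDegree
      have h3 : (C c * v.map (algebraMap ℤ_[2] ℚ_[2])).natDegree = 1 := by
        rw [natDegree_C_mul hc, natDegree_map_eq_of_injective alg_inj, hd]
      rw [h3, coeff_C_mul, coeff_map] at h2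
      exact h2
    have h4 : c * V0 = -x := by
      rw [hx, neg_neg, eq_div_iff V10]
      linear_combination V0 * h1
    rw [hvexp, mul_add, ← mul_assoc, ← C_mul, ← C_mul, h1, h4, C_1, one_mul, C_neg, sub_eq_add_neg]
  rw [hG] at hw ⊢
  have hroot : (fK f).eval x = (w.eval x) ^ 2 := by
    have h := dvd_iff_isRoot.1 hw
    rw [IsRoot.def, eval_sub, eval_pow] at h
    linear_combination h
  have hphi := phi (algebraMap ℤ_[2] ℚ_[2] (f.coeff 0)) (algebraMap ℤ_[2] ℚ_[2] (f.coeff 1))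
    (algebraMap ℤ_[2] ℚ_[2] (f.coeff 2)) (algebraMap ℤ_[2] ℚ_[2] (f.coeff 3))
    (algebraMap ℤ_[2] ℚ_[2] (f.coeff 4)) z 0 z x hxz (by ring)
  have hfx : (fK f).eval x = x ^ 5 + algebraMap ℤ_[2] ℚ_[2] (f.coeff 4) * x ^ 4 +
      algebraMap ℤ_[2] ℚ_[2] (f.coeff 3) * x ^ 3 + algebraMap ℤ_[2] ℚ_[2] (f.coeff 2) * x ^ 2 +
      algebraMap ℤ_[2] ℚ_[2] (f.coeff 1) * x + algebraMap ℤ_[2] ℚ_[2] (f.coeff 0) := by
    rw [fKexp hf]
    simp only [eval_add, eval_mul, eval_pow, eval_X, eval_C]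
  rw [← hfx, hroot] at hphi
  obtain ⟨Φ, hΦ⟩ : ∃ Φ : ℚ_[2], Φ = z ^ 5 * (w.eval x) ^ 2 := ⟨_, rfl⟩
  have hz' := hzn.le
  have hΦn : ‖Φ‖ = 1 := by
    rw [hΦ, hphi, zero_mul, sub_zero]
    refine one_add (mul_lt_right' ?_ hzn)
    exact add_le (add_le (add_le (add_le (norm_int _) (mul_le' (norm_int _) hz'))
      (mul_le' (norm_int _) (sub_le' (pow_le' hz' 2) (by simp))))
      (mul_le' (norm_int _) (sub_le' (pow_le' hz' 3) (by simp))))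
      (mul_le' (norm_int _) (add_le (sub_le' (pow_le' hz' 4) (by simp)) (by simp)))
  have hΦ0 : Φ ≠ 0 := fun h => by
    rw [h, norm_zero] at hΦn
    exact zero_ne_one hΦn
  have hy0 : w.eval x ≠ 0 := by
    intro h
    apply hΦ0
    rw [hΦ, h]
    ring
  obtain ⟨σ, hσ⟩ : ∃ σ : ℚ_[2], σ = x ^ 2 / w.eval x := ⟨_, rfl⟩
  have hσ2 : σ ^ 2 = z * Φ⁻¹ := by
    rw [hσ, hΦ, div_pow, div_eq_iff (pow_ne_zero 2 hy0)]
    field_simp
    calc x ^ 4 * z ^ 4 = (x * z) ^ 4 := by ring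
      _ = 1 := by rw [hxz]; ring
  have hσn : ‖σ‖ < 1 := by
    apply sq_lt
    rw [hσ2, norm_mul, norm_inv, hΦn, inv_one, mul_one]
    exact hzn
  have hσ0 : σ ≠ 0 := by
    rw [hσ]
    exact div_ne_zero (pow_ne_zero 2 hx0) hy0
  obtain ⟨s', hs'⟩ := half hσn
  have hs0 : (2 * s' : ℤ_[2]) ≠ 0 := by
    intro h
    rw [h, map_zero] at hs'
    exact hσ0 hs'.symm
  refine ⟨2, ⟨0, C s'⟩, ?_, mem_of hw 2 _ ?_⟩
  · rw [norm_of, hd]
    have e : (X ^ 2 + 2 * (⟨0, C s'⟩ : AA f).re : ℤ_[2][X]) ^ 2 -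
        f * (2 * (⟨0, C s'⟩ : AA f).im) ^ 2 = X ^ 4 - C ((2 * s') ^ 2) * f := by
      change (X ^ 2 + 2 * (0 : ℤ_[2][X])) ^ 2 - f * (2 * C s') ^ 2 = _
      simp only [map_pow, map_mul, map_ofNat]
      ring
    rw [e, natDegree_sub_eq_right_of_natDegree_lt]
    · rw [deg_f_mul hf (pow_ne_zero 2 hs0)]
    · rw [deg_f_mul hf (pow_ne_zero 2 hs0), natDegree_X_pow]
      norm_num
  · rw [dvd_iff_isRoot, IsRoot.def]
    have e : ((X ^ 2 + 2 * (⟨0, C s'⟩ : AA f).re : ℤ_[2][X]).map (algebraMap ℤ_[2] ℚ_[2]) -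
        w * (2 * (⟨0, C s'⟩ : AA f).im : ℤ_[2][X]).map (algebraMap ℤ_[2] ℚ_[2])) =
        X ^ 2 - w * C σ := by
      change ((X ^ 2 + 2 * 0 : ℤ_[2][X]).map (algebraMap ℤ_[2] ℚ_[2]) -
        w * (2 * C s' : ℤ_[2][X]).map (algebraMap ℤ_[2] ℚ_[2])) = _
      have e2 : (2 * C s' : ℤ_[2][X]) = C (2 * s') := by
        rw [C_mul]
        rfl
      rw [e2, map_C, hs', mul_zero, add_zero, Polynomial.map_pow, map_X]
    rw [e, eval_sub, eval_mul, eval_pow, eval_X, eval_C, hσ, mul_div_cancel₀ _ hy0, sub_self]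

/-- degree two -/
theorem two_case {f : ℤ_[2][X]} (hf : Good f) {v : ℤ_[2][X]} {c : ℚ_[2]} {w : ℚ_[2][X]}
    (hv : r2 v = 1) (hd : v.natDegree = 2)
    (hm : (C c * v.map (algebraMap ℤ_[2] ℚ_[2])).Monic)
    (hw : C c * v.map (algebraMap ℤ_[2] ℚ_[2]) ∣ fK f - w ^ 2) :
    ∃ (m : ℕ) (q : AA f), (⟨X ^ m, 0⟩ + 2 * q : AA f).norm.natDegree = 2 * m + v.natDegree ∧
      toK f (⟨X ^ m, 0⟩ + 2 * q) ∈ mi (fK f) (C c * v.map (algebraMap ℤ_[2] ℚ_[2])) (-w) := by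
  have hc : c ≠ 0 := by
    rintro rfl
    rw [C_0, zero_mul] at hm
    exact not_monic_zero hm
  set V0 : ℚ_[2] := algebraMap ℤ_[2] ℚ_[2] (v.coeff 0) with hV0
  set V1 : ℚ_[2] := algebraMap ℤ_[2] ℚ_[2] (v.coeff 1) with hV1
  set V2 : ℚ_[2] := algebraMap ℤ_[2] ℚ_[2] (v.coeff 2) with hV2
  have n0 : ‖V0‖ = 1 := (norm_alg _).trans (r2_coeff_zero hv)
  have n1 : ‖V1‖ < 1 := (norm_alg (v.coeff 1)).trans_lt (r2_coeff hv 1 one_ne_zero)
  have n2 : ‖V2‖ < 1 := (norm_alg (v.coeff 2)).trans_lt (r2_coeff hv 2 two_ne_zero)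
  have V00 : V0 ≠ 0 := fun h => by
    rw [h, norm_zero] at n0
    exact zero_ne_one n0
  set G : ℚ_[2][X] := C c * v.map (algebraMap ℤ_[2] ℚ_[2]) with hGdef
  have hGd : G.natDegree = 2 := by
    rw [hGdef, natDegree_C_mul hc, natDegree_map_eq_of_injective alg_inj, hd]
  have hcV2 : c * V2 = 1 := by
    have h2 := hm.coeff_natDegree
    rw [hGd, hGdef, coeff_C_mul, coeff_map] at h2
    exact h2
  have hG : G = X ^ 2 + C (c * V1) * X + C (c * V0) := by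
    have h := v.as_sum_range_C_mul_X_pow
    rw [hd] at h
    simp only [Finset.sum_range_succ, Finset.sum_range_zero, zero_add, pow_zero, mul_one,
      pow_one] at h
    rw [hGdef, h]
    simp only [Polynomial.map_add, Polynomial.map_mul, Polynomial.map_pow, map_X, map_C]
    calc C c * (C V0 + C V1 * X + C V2 * X ^ 2)
        = C (c * V2) * X ^ 2 + C (c * V1) * X + C (c * V0) := by
          simp only [C_mul]
          ring
      _ = _ := by rw [hcV2, C_1, one_mul]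
  -- the algebra
  obtain ⟨g0, hg0⟩ : ∃ g0 : ℚ_[2], g0 = c * V0 := ⟨_, rfl⟩
  obtain ⟨g1, hg1⟩ : ∃ g1 : ℚ_[2], g1 = c * V1 := ⟨_, rfl⟩
  have hg00 : g0 ≠ 0 := by
    rw [hg0]
    exact mul_ne_zero hc V00
  rw [← hg0, ← hg1] at hG
  let x : AdjoinRoot G := AdjoinRoot.root G
  have ho : ∀ a : ℚ_[2], algebraMap ℚ_[2] (AdjoinRoot G) a = AdjoinRoot.mk G (C a) := fun a => rfl
  have hxX : x = AdjoinRoot.mk G X := (AdjoinRoot.mk_X).symm
  set o := algebraMap ℚ_[2] (AdjoinRoot G) with hodef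
  have hx2 : x ^ 2 + o g1 * x + o g0 = 0 := by
    rw [hxX, ho, ho, ← map_pow, ← map_mul, ← map_add, ← map_add, ← hG]
    exact AdjoinRoot.mk_self
  have hgi : o g0⁻¹ * o g0 = 1 := by
    rw [← map_mul, inv_mul_cancel₀ hg00, map_one]
  obtain ⟨z, hz⟩ : ∃ z : AdjoinRoot G, z = -(o g0⁻¹ * (x + o g1)) := ⟨_, rfl⟩
  have hxz : x * z = 1 := by
    rw [hz]
    linear_combination (-o g0⁻¹) * hx2 + hgi
  have hg0z : o g0 * z = -(x + o g1) := by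
    rw [hz]
    linear_combination (-(x + o g1)) * hgi
  obtain ⟨t, ht⟩ : ∃ t : ℚ_[2], t = -(g1 / g0) := ⟨_, rfl⟩
  obtain ⟨n, hn⟩ : ∃ n : ℚ_[2], n = g0⁻¹ := ⟨_, rfl⟩
  have hz2 : z ^ 2 = o t * z - o n := by
    have h1 : o g0 * z ^ 2 + o g1 * z + 1 = 0 := by
      linear_combination z ^ 2 * hx2 - (x * z + 1 + o g1 * z) * hxz
    have h2 : o t = -(o g0⁻¹ * o g1) := by
      rw [ht, map_neg, div_eq_mul_inv, map_mul, mul_comm]
    rw [h2, hn]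
    linear_combination o g0⁻¹ * h1 - z ^ 2 * hgi
  have hb : ∀ a b : ℚ_[2], o a + o b * z = 0 → a = 0 ∧ b = 0 := by
    intro a b hab
    have h1 : AdjoinRoot.mk G (C (a * g0 - b * g1) - C b * X) = 0 := by
      rw [map_sub, map_mul, ← hxX, ← ho, ← ho, map_sub, map_mul, map_mul]
      linear_combination o g0 * hab - o b * hg0z
    rw [AdjoinRoot.mk_eq_zero] at h1
    have h2 : (C (a * g0 - b * g1) - C b * X : ℚ_[2][X]) = 0 := by
      refine eq_zero_of_dvd_of_natDegree_lt h1 ?_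
      rw [hGd]
      refine lt_of_le_of_lt (natDegree_sub_le _ _) ?_
      rw [natDegree_C]
      have h5 : (C b * X : ℚ_[2][X]).natDegree ≤ 1 := by
        refine natDegree_mul_le.trans ?_
        rw [natDegree_C, natDegree_X]
      exact max_lt (by norm_num) (lt_of_le_of_lt h5 (by norm_num))
    have h3 := congrArg (fun p => p.coeff 1) h2
    have h4 := congrArg (fun p => p.coeff 0) h2
    simp only [coeff_sub, coeff_C_mul, coeff_X_one, coeff_X_zero, mul_one, mul_zero,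
      coeff_zero, coeff_C_zero, sub_zero] at h3 h4
    rw [coeff_C, if_neg one_ne_zero, zero_sub, neg_eq_zero] at h3
    rw [h3, zero_mul, sub_zero] at h4
    exact ⟨(mul_eq_zero.1 h4).resolve_right hg00, h3⟩
  have hnt : ‖t‖ < 1 := by
    rw [ht, norm_neg, hg0, hg1, mul_div_mul_left _ _ hc, norm_div, n0, div_one]
    exact n1
  have hnn : ‖n‖ < 1 := by
    have h1 : n = V2 / V0 := by
      rw [hn, hg0, eq_div_iff V00]
      have h2 : c⁻¹ = V2 := by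
        rw [inv_eq_iff_eq_inv, eq_comm, inv_eq_iff_eq_inv, eq_comm]
        exact (eq_inv_of_mul_eq_one_right hcV2).symm
      rw [mul_inv, mul_assoc, inv_mul_cancel₀ V00, mul_one, h2]
    rw [h1, norm_div, n0, div_one]
    exact n2
  have hn0 : n ≠ 0 := by
    rw [hn]
    exact inv_ne_zero hg00
  -- `w` modulo `G`
  have hG1 : G ≠ 1 := by
    intro h
    rw [h, natDegree_one] at hGd
    norm_num at hGd
  have hwd : (w %ₘ G).natDegree ≤ 1 := by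
    have := natDegree_modByMonic_lt w hm hG1
    rw [hGd] at this
    omega
  obtain ⟨r1, r0, hr⟩ := exists_eq_X_add_C_of_natDegree_le_one hwd
  have hW : AdjoinRoot.mk G w = o r0 + o r1 * x := by
    have h1 : w = w %ₘ G + G * (w /ₘ G) := (modByMonic_add_div w G).symm
    rw [h1, map_add, map_mul, AdjoinRoot.mk_self, zero_mul, add_zero, hr, map_add, map_mul, ho, ho,
      hxX]
    ring
  have hfE : AdjoinRoot.mk G w ^ 2 = x ^ 5 + o (algebraMap ℤ_[2] ℚ_[2] (f.coeff 4)) * x ^ 4 +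
      o (algebraMap ℤ_[2] ℚ_[2] (f.coeff 3)) * x ^ 3 +
      o (algebraMap ℤ_[2] ℚ_[2] (f.coeff 2)) * x ^ 2 +
      o (algebraMap ℤ_[2] ℚ_[2] (f.coeff 1)) * x + o (algebraMap ℤ_[2] ℚ_[2] (f.coeff 0)) := by
    have h1 : AdjoinRoot.mk G (fK f - w ^ 2) = 0 := AdjoinRoot.mk_eq_zero.2 hw
    rw [map_sub, map_pow, sub_eq_zero] at h1
    rw [← h1, fKexp hf]
    simp only [map_add, map_mul, map_pow, ho, hxX]
  obtain ⟨ν, τ, hν, hτ, hν0, hres⟩ := two_alg _ _ _ _ _ t n r0 r1 x z (AdjoinRoot.mk G w) hxz hz2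
    hW hfE hb (norm_int _) (norm_int _) (norm_int _) (norm_int _) (norm_int _) hnt hnn hn0
  obtain ⟨ν', hν'⟩ := half hν
  obtain ⟨τ', hτ'⟩ := half hτ
  have hν'0 : (2 * ν' : ℤ_[2]) ≠ 0 := by
    intro h
    rw [h, map_zero] at hν'
    exact hν0 hν'.symm
  refine ⟨4, ⟨C ν' * f, C τ' * X ^ 2⟩, ?_, mem_of hw 4 _ ?_⟩
  · rw [norm_of, hd]
    have e : (X ^ 4 + 2 * (⟨C ν' * f, C τ' * X ^ 2⟩ : AA f).re : ℤ_[2][X]) ^ 2 -
        f * (2 * (⟨C ν' * f, C τ' * X ^ 2⟩ : AA f).im) ^ 2 =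
        (X ^ 4 + C (2 * ν') * f) ^ 2 - f * (C (2 * τ') * X ^ 2) ^ 2 := by
      change (X ^ 4 + 2 * (C ν' * f)) ^ 2 - f * (2 * (C τ' * X ^ 2)) ^ 2 = _
      simp only [map_mul, map_ofNat]
      ring
    have hA : (X ^ 4 + C (2 * ν') * f : ℤ_[2][X]).natDegree = 5 := by
      rw [natDegree_add_eq_right_of_natDegree_lt]
      · exact deg_f_mul hf hν'0
      · rw [deg_f_mul hf hν'0, natDegree_X_pow]
        norm_num
    have hB : (f * (C (2 * τ') * X ^ 2) ^ 2 : ℤ_[2][X]).natDegree ≤ 9 := by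
      refine natDegree_mul_le.trans ?_
      rw [hf.deg]
      have h1 : ((C (2 * τ') * X ^ 2) ^ 2 : ℤ_[2][X]).natDegree ≤ 2 * 2 :=
        natDegree_pow_le.trans (Nat.mul_le_mul_left 2 (natDegree_C_mul_X_pow_le _ _))
      omega
    rw [e, natDegree_sub_eq_left_of_natDegree_lt]
    · rw [natDegree_pow, hA]
    · rw [natDegree_pow, hA]
      omega
  · rw [← AdjoinRoot.mk_eq_zero]
    have e : ((X ^ 4 + 2 * (⟨C ν' * f, C τ' * X ^ 2⟩ : AA f).re : ℤ_[2][X]).map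
        (algebraMap ℤ_[2] ℚ_[2]) - w * (2 * (⟨C ν' * f, C τ' * X ^ 2⟩ : AA f).im :
          ℤ_[2][X]).map (algebraMap ℤ_[2] ℚ_[2])) =
        X ^ 4 + C ν * fK f - w * (C τ * X ^ 2) := by
      change ((X ^ 4 + 2 * (C ν' * f) : ℤ_[2][X]).map (algebraMap ℤ_[2] ℚ_[2]) -
        w * (2 * (C τ' * X ^ 2) : ℤ_[2][X]).map (algebraMap ℤ_[2] ℚ_[2])) = _
      have e2 : (2 * (C ν' * f) : ℤ_[2][X]) = C (2 * ν') * f := by
        rw [C_mul]
        change _ = (2 * C ν') * f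
        ring
      have e3 : (2 * (C τ' * X ^ 2) : ℤ_[2][X]) = C (2 * τ') * X ^ 2 := by
        rw [C_mul]
        change _ = (2 * C τ') * X ^ 2
        ring
      rw [e2, e3]
      simp only [Polynomial.map_add, Polynomial.map_mul, Polynomial.map_pow, map_X, map_C, hν', hτ']
    have hfw : AdjoinRoot.mk G (fK f) = AdjoinRoot.mk G w ^ 2 := by
      have h1 : AdjoinRoot.mk G (fK f - w ^ 2) = 0 := AdjoinRoot.mk_eq_zero.2 hw
      rw [map_sub, map_pow, sub_eq_zero] at h1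
      exact h1
    rw [e, map_sub, map_add, map_mul, map_mul, map_mul, hfw, map_pow, map_pow, ← hxX, ← ho, ← ho]
    exact hres

/-- INFB: existence of `H`. -/
theorem infb : Pool.Agent.N922.PY.S_INFB := by
  intro f hf v c w hv hd hm hw
  have h3 : v.natDegree = 0 ∨ v.natDegree = 1 ∨ v.natDegree = 2 := by omega
  rcases h3 with h | h | h
  · have hc : c ≠ 0 := by
      rintro rfl
      rw [C_0, zero_mul] at hm
      exact not_monic_zero hm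
    have hG : C c * v.map (algebraMap ℤ_[2] ℚ_[2]) = 1 := by
      refine hm.natDegree_eq_zero.1 ?_
      rw [natDegree_C_mul hc, natDegree_map_eq_of_injective alg_inj, h]
    refine ⟨0, 0, ?_, mem_of hw 0 0 ?_⟩
    · rw [norm_of, h]
      change ((X ^ 0 + 2 * (0 : ℤ_[2][X])) ^ 2 - f * (2 * (0 : ℤ_[2][X])) ^ 2).natDegree = _
      simp
    · rw [hG]
      exact one_dvd _
  · exact one_case hf hv h hm hw
  · exact two_case hf hv h hm hw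

end Pool.Agent.N280.PY
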